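import Pool.Agent.Q279.SC.All

/-!
# The supersingular congruence for `E_4/(j - j(C))` (MP_06548c_nt, Q1)

Definitions (`Pool.Agent.Q279.FB.Defs`): `E k` is the `q`-expansion of the normalised Eisenstein
series of weight `k` and level one, `Delta = (E_4^3 - E_6^2)/1728`, `j = E_4^3/Delta` as a formal
Laurent series in `q` over `ℚ`, `F k r c = E_k/(j - c)^r`, so `F 4 1 C.j` is `E_4/(j - j(C))`.
`GoodModel C p W`: `W` is an integral Weierstrass model of `C` whose discriminant is prime to `p`.
`ap W p = p + 1 - #W(𝔽_p)`.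

Proof: for `f = E_4 E_6/Δ` the Hecke operator `T_p` of weight `-2` and duality give
`a_p(F_C) Δ^p E_4 E_6 (C)` as the value at `C` of the modular form `N = p^3 Δ^p (f | T_p)` of weight
`12 p - 2`, up to `p^3`. One has `N = E_(p-1)^2 (E_4 E_6)^p + p G`, and modulo `p` the derivative of
`G` is computed with the congruence `12 θ((E_(p-1) - 1)/p) = E_2 - E_2(q^p)`. From this the form `G`
vanishes at the zeros of the Hasse invariant, which are simple.
Lemmas by helper63, helper237, helper298 and helper224.
-/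

set_option autoImplicit false

namespace Pool.Agent.Results.MP_06548c_nt.SupersingularCongruence

open Q279.FB

/-- For every elliptic curve `C` over `ℚ` with `j(C) ≠ 0, 1728` and every supersingular prime `p` of
`C` with `v_p(j(C)) = 0 = v_p(j(C) - 1728)`, the coefficient of `q^p` in `E_4/(j - j(C))` is
divisible by `p^2`. -/
theorem result (C : WeierstrassCurve ℚ) [C.IsElliptic] (hj0 : C.j ≠ 0) (hj1 : C.j ≠ 1728)
    (p : ℕ) (hp : p.Prime) (W : WeierstrassCurve ℤ) (hW : GoodModel C p W)
    (hss : (p : ℤ) ∣ ap W p) (h0 : padicValRat p C.j = 0) (h1 : padicValRat p (C.j - 1728) = 0) :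
    (F 4 1 C.j).coeff (p : ℤ) = 0 ∨ 2 ≤ padicValRat p ((F 4 1 C.j).coeff (p : ℤ)) := by
  have h := Pool.Agent.Q279.SC.all C hj0 hj1 p hp W hW hss h0 h1
  have ha : a (F 4 1 C.j) (p : ℚ) = (F 4 1 C.j).coeff (p : ℤ) := by
    unfold a
    rw [if_pos (by simp)]
    norm_num
  rw [ha] at h
  exact h

end Pool.Agent.Results.MP_06548c_nt.SupersingularCongruence
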